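import Mathlib
import Pool.Agent.V1128.SL2.Field

set_option autoImplicit false
set_option linter.unusedSimpArgs false

namespace Pool.Agent.Results.MP_d2e4ca_al.SL2PowerSeries

open Pool.Agent.V1128.SL2

/-- A group is a CA-group if the centralizer of every non-trivial element is abelian. -/
def IsCA (G : Type) [Group G] : Prop :=
  ∀ g : G, g ≠ 1 → ∀ x y : G, x * g = g * x → y * g = g * y → x * y = y * x

/-- A profinite group is prosoluble if all its quotients by open normal subgroups are soluble. -/
def IsProsoluble (G : Type) [Group G] [TopologicalSpace G] : Prop :=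
  ∀ (U : Subgroup G) [U.Normal], IsOpen (U : Set G) → Group.IsSolvable (G ⧸ U)

section

open scoped PowerSeries.WithPiTopology
open PowerSeries

variable (K : Type) [Field K] [Finite K] [TopologicalSpace K] [DiscreteTopology K]

theorem main [CharP K 2] (u : Kˣ) (hu : (u : K) ^ 2 ≠ 1) :
    ∃ (G : Type) (_ : Group G) (_ : TopologicalSpace G) (_ : IsTopologicalGroup G),
      CompactSpace G ∧ T2Space G ∧ TotallyDisconnectedSpace G ∧ Infinite G ∧ IsCA G ∧
      ¬ IsProsoluble G ∧ ∃ (U : Subgroup G) (_ : U.Normal), IsOpen (U : Set G) ∧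
        Nonempty (G ⧸ U ≃* Matrix.SpecialLinearGroup (Fin 2) K) := by
  have hcl : Topology.IsClosedEmbedding
      ((↑) : Matrix.SpecialLinearGroup (Fin 2) (PowerSeries K) → Matrix (Fin 2) (Fin 2) (PowerSeries K)) :=
    Matrix.SpecialLinearGroup.isClosedEmbedding_val
  have h1 : CompactSpace (PowerSeries K) := inferInstanceAs (CompactSpace ((Unit →₀ ℕ) → K))
  have h2 : TotallyDisconnectedSpace (PowerSeries K) :=
    inferInstanceAs (TotallyDisconnectedSpace ((Unit →₀ ℕ) → K))
  have hcomp : CompactSpace (Matrix (Fin 2) (Fin 2) (PowerSeries K)) :=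
    inferInstanceAs (CompactSpace (Fin 2 → Fin 2 → (PowerSeries K)))
  have htd : TotallyDisconnectedSpace (Matrix (Fin 2) (Fin 2) (PowerSeries K)) :=
    inferInstanceAs (TotallyDisconnectedSpace (Fin 2 → Fin 2 → (PowerSeries K)))
  have hG1 : CompactSpace (Matrix.SpecialLinearGroup (Fin 2) (PowerSeries K)) := hcl.compactSpace
  have hG2 : T2Space (Matrix.SpecialLinearGroup (Fin 2) (PowerSeries K)) := hcl.isEmbedding.t2Space
  have hG3 : TotallyDisconnectedSpace (Matrix.SpecialLinearGroup (Fin 2) (PowerSeries K)) :=
    hcl.isEmbedding.isTotallyDisconnected_range.mp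
      (isTotallyDisconnected_of_totallyDisconnectedSpace _)
  have hchar : CharP (PowerSeries K) 2 := charP_of_injective_ringHom (C_injective (R := K)) 2
  set f : Matrix.SpecialLinearGroup (Fin 2) (PowerSeries K) →* Matrix.SpecialLinearGroup (Fin 2) K :=
    Matrix.SpecialLinearGroup.map (constantCoeff (R := K)) with hf
  have hfs : Function.Surjective f := by
    intro A
    refine ⟨Matrix.SpecialLinearGroup.map (C (R := K)) A, ?_⟩
    apply ext2 <;> simp [hf]
  have hfo : IsOpen (f.ker : Set (Matrix.SpecialLinearGroup (Fin 2) (PowerSeries K))) := by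
    have hcont : Continuous f := Continuous.specialLinearGroup_map (PowerSeries.WithPiTopology.continuous_constantCoeff K)
    have hd : DiscreteTopology (Matrix.SpecialLinearGroup (Fin 2) K) := inferInstance
    exact (isOpen_discrete {(1 : Matrix.SpecialLinearGroup (Fin 2) K)}).preimage hcont
  have hiso : Nonempty (Matrix.SpecialLinearGroup (Fin 2) (PowerSeries K) ⧸ f.ker ≃*
      Matrix.SpecialLinearGroup (Fin 2) K) := ⟨QuotientGroup.quotientKerEquivOfSurjective f hfs⟩
  have hinf : Infinite (Matrix.SpecialLinearGroup (Fin 2) (PowerSeries K)) := by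
    apply Infinite.of_injective (fun n : ℕ => E ((X : PowerSeries K) ^ n))
    intro m n hmn
    have h3 := congrArg (fun A : Matrix.SpecialLinearGroup (Fin 2) (PowerSeries K) => A.1 0 1) hmn
    simp only [E01] at h3
    have h4 := congrArg PowerSeries.order h3
    simpa [PowerSeries.order_X_pow] using h4
  refine ⟨Matrix.SpecialLinearGroup (Fin 2) (PowerSeries K), inferInstance, inferInstance,
    inferInstance, hG1, hG2, hG3, hinf, ?_, ?_, f.ker, inferInstance, hfo, hiso⟩
  · intro g hg x y hx hy
    exact comm_trans_two hg hx hy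
  · intro hps
    have h3 := hps f.ker hfo
    obtain ⟨e⟩ := hiso
    exact not_solvable u hu (Group.isSolvable_of_surjective (f := e.toMonoidHom) e.surjective)

end

/-- For every `m ≥ 2` there is an infinite profinite CA-group that is not prosoluble and has
`SL(2, 2 ^ m) = PSL(2, 2 ^ m)` as a quotient by an open normal subgroup. -/
theorem result (m : ℕ) (hm : 2 ≤ m) :
    ∃ (G : Type) (_ : Group G) (_ : TopologicalSpace G) (_ : IsTopologicalGroup G),
      CompactSpace G ∧ T2Space G ∧ TotallyDisconnectedSpace G ∧ Infinite G ∧ IsCA G ∧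
      ¬ IsProsoluble G ∧ ∃ (U : Subgroup G) (_ : U.Normal), IsOpen (U : Set G) ∧
        Nonempty (G ⧸ U ≃* Matrix.SpecialLinearGroup (Fin 2) (GaloisField 2 m)) := by
  let _ : TopologicalSpace (GaloisField 2 m) := ⊥
  have _ : DiscreteTopology (GaloisField 2 m) := ⟨rfl⟩
  have hcard : Nat.card (GaloisField 2 m) = 2 ^ m := GaloisField.card 2 m (by omega)
  obtain ⟨u, hu⟩ : ∃ u : (GaloisField 2 m)ˣ, (u : GaloisField 2 m) ^ 2 ≠ 1 := by
    by_contra hc
    push Not at hc
    have h1 : ∀ x : GaloisField 2 m, x = 0 ∨ x = 1 := by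
      intro x
      by_cases hx : x = 0
      · exact Or.inl hx
      · right
        have h2 := hc (Units.mk0 x hx)
        rw [Units.val_mk0] at h2
        have h3 : (x - 1) * (x - 1) = 0 := by
          have h6 : (2 : GaloisField 2 m) = 0 := CharTwo.two_eq_zero
          linear_combination h2 - (x - 1) * h6
        exact sub_eq_zero.mp (mul_self_eq_zero.mp h3)
    have h4 : Nat.card (GaloisField 2 m) ≤ 2 := by
      have h5 : Function.Surjective (fun b : Bool => if b then (1 : GaloisField 2 m) else 0) := by
        intro x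
        rcases h1 x with h | h
        · exact ⟨false, by simp [h]⟩
        · exact ⟨true, by simp [h]⟩
      have := Nat.card_le_card_of_surjective _ h5
      simpa using this
    rw [hcard] at h4
    have : 2 ^ 2 ≤ 2 ^ m := Nat.pow_le_pow_right (by norm_num) hm
    omega
  exact main (GaloisField 2 m) u hu

end Pool.Agent.Results.MP_d2e4ca_al.SL2PowerSeries
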